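import Pool.Agent.Lib.MP_64e9d4_co.Main

set_option autoImplicit false

open Pool.Agent.Lib.MP_64e9d4_co

/-- For every tripartite 3-graph `T` with a singleton part there is a constant `C = C(T)` such that
for every `ε ∈ (0, 1)` the value `δ = ε ^ C` is admissible. -/
theorem Pool.Agent.Results.MP_64e9d4_co.PolynomialRodl.result :
    ∀ (W : Fin 3 → Type) [∀ j, Fintype (W j)] (T : TripartiteGraph W),
      (∃ j, Fintype.card (W j) = 1) →
      ∃ C : ℝ, 0 < C ∧ ∀ ε : ℝ, 0 < ε → ε < 1 → Admissible T ε (ε ^ C) :=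
  fun _ _ T hT => main T hT
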